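import Pool.Agent.helper22.ARR.Defs

/-!
# The dimension of the centre of an invariant valuation on an arrangement variety

Let `X` be a general arrangement variety of dimension `n + c` over `ℙ^c` with elliptic fixed point
`x`, given by vectors `v i` in the lattice `ℤ^n × ℤ^r` as in `Pool.Agent.helper22.ARR.Defs`. The
invariant valuations which are toroidal over the arrangement are the points `z` of `bigCone t` with
nonnegative coordinates `Sum.inr y`, at most `c` of them not zero.

The coordinate ring of `X` is spanned by the functions `χ^m = χ^u ∏ ℓ_y ^ {a_y}`, where `m = (u, a)` is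
nonnegative on `bigCone t`, `∑ a_y = 0`, and the `ℓ_y` are the linear forms of the arrangement. If `F` is
the smallest face of `bigCone t` which contains `z`, then the `χ^m` of order zero along `z` are those
with `m = 0` on `F`, and these `m` span the annihilator of `F`. So the dimension of the centre of `z` on
`X` is the largest rank of the restriction of this annihilator to one of the coordinate subspaces
`ℝ^n × ℝ^S`, where `S` has `c` elements and contains all `y` with `z_y ≠ 0` (these are the maximal cones
around `z` of the tropicalization of the torus times the complement of the arrangement). This is the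
rank of `ℝ^n × ℝ^S` modulo the span of `F`.
-/

noncomputable section

namespace Pool.Agent.helper20.TLS

open Finset Pool.Agent.helper22.ARR

variable {n r : ℕ}

/-- the vectors `x` such that `w + x` and `w - x` lie in `bigCone t`; their linear span is the span of
the smallest face of `bigCone t` which contains `w` -/
def faceDirs (t : GenPair (Fin n ⊕ Fin r)) (w : Fin n ⊕ Fin r → ℝ) :
    Set (Fin n ⊕ Fin r → ℝ) :=
  {x | w + x ∈ bigCone t ∧ w - x ∈ bigCone t}

/-- the subspace `ℝ^n × ℝ^S` -/
def coordSet (n : ℕ) (S : Finset (Fin r)) : Set (Fin n ⊕ Fin r → ℝ) :=
  {x | ∀ y, y ∉ S → x (Sum.inr y) = 0}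

/-- the dimension of the centre of the valuation `z`: the largest rank of a subspace `ℝ^n × ℝ^S` modulo
the span of the smallest face of `bigCone t` which contains `z`, where `S` has `c` elements and `z` lies
in `ℝ^n × ℝ^S` -/
def centreDim (c : ℕ) (t : GenPair (Fin n ⊕ Fin r)) (z : Fin n ⊕ Fin r → ℤ) : ℕ :=
  ((univ : Finset (Finset (Fin r))).filter fun S =>
    S.card = c ∧ ∀ y, z (Sum.inr y) ≠ 0 → y ∈ S).sup fun S =>
      Set.finrank ℝ (faceDirs t (toReal z) ∪ coordSet n S) -
        Set.finrank ℝ (faceDirs t (toReal z))

end Pool.Agent.helper20.TLS
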