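import Pool.Agent.helper20.TLS.Face

/-!
# The dimension of the centre: lower bounds
-/

noncomputable section

namespace Pool.Agent.helper20.TLS

open Finset Pool.Agent.helper22.ARR

variable {n r c : ℕ} {Γ : Set ℝ} {t : GenPair (Fin n ⊕ Fin r)} {z : Fin n ⊕ Fin r → ℤ}

theorem exists_zero (hc : c < r) (hz : Trop c z) : ∃ y, z (Sum.inr y) = 0 := by
  by_contra hcon
  push Not at hcon
  have h1 := hz.2
  rw [Finset.filter_true_of_mem (fun y _ => hcon y), Finset.card_univ, Fintype.card_fin] at h1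
  omega

/-- coordinates of a representation -/
theorem rep_inr {μ : Fin t.p → ℝ} {s : ℝ} {x : Fin n ⊕ Fin r → ℝ}
    (h : ∀ j, x j = ∑ i, μ i * (t.v i j : ℝ) + s * (diag n r j : ℝ)) (y : Fin r) :
    x (Sum.inr y) = ∑ i, μ i * (t.v i (Sum.inr y) : ℝ) + s := by
  rw [h]
  simp [Pool.Agent.helper22.ARR.diag]

/-- if `z - μ_i v_i` is a nonnegative combination, then `v_i` is in the face -/
theorem face_rep (hz : toReal z ∈ bigCone t) {μ : Fin t.p → ℝ} {s : ℝ} (hμ : ∀ i, 0 ≤ μ i)
    (h : ∀ j, (z j : ℝ) = ∑ i, μ i * (t.v i j : ℝ) + s * (diag n r j : ℝ)) {i : Fin t.p}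
    (hi : 0 < μ i) : toReal (t.v i) ∈ faceSpan t (toReal z) := by
  classical
  refine gen_mem hz hi ⟨fun i' => if i' = i then 0 else μ i', s, fun i' => ?_, fun j => ?_⟩
  · dsimp only
    split_ifs
    · exact le_rfl
    · exact hμ i'
  · simp only [Pi.sub_apply, Pi.smul_apply, smul_eq_mul, toReal]
    rw [h j, ← Finset.add_sum_erase univ (fun i => μ i * (t.v i j : ℝ)) (Finset.mem_univ i)]
    rw [← Finset.add_sum_erase univ (fun i' => (if i' = i then 0 else μ i') * (t.v i' j : ℝ))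
      (Finset.mem_univ i)]
    have h1 : ∑ i' ∈ univ.erase i, (if i' = i then 0 else μ i') * (t.v i' j : ℝ) =
        ∑ i' ∈ univ.erase i, μ i' * (t.v i' j : ℝ) := by
      refine Finset.sum_congr rfl fun i' hi' => ?_
      rw [if_neg (Finset.ne_of_mem_erase hi')]
    rw [h1, if_pos rfl]
    ring

theorem rep_s (ht : IsLC c Γ t) (hz : Trop c z) (hz2 : toReal z ∈ bigCone t) {y0 : Fin r}
    (hy0 : ∀ i, t.v i (Sum.inr y0) ≠ 0 → toReal (t.v i) ∉ faceSpan t (toReal z))
    {μ : Fin t.p → ℝ} {s : ℝ} (hμ : ∀ i, 0 ≤ μ i)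
    (h : ∀ j, (z j : ℝ) = ∑ i, μ i * (t.v i j : ℝ) + s * (diag n r j : ℝ)) :
    s = 0 ∧ z (Sum.inr y0) = 0 ∧
      ∀ y, z (Sum.inr y) = 0 → ∀ i, t.v i (Sum.inr y) ≠ 0 → μ i = 0 := by
  have h1 : ∀ i, t.v i (Sum.inr y0) ≠ 0 → μ i = 0 := by
    intro i hi
    by_contra hne
    exact hy0 i hi (face_rep hz2 hμ h (lt_of_le_of_ne (hμ i) (Ne.symm hne)))
  have hv0 : ∀ i y, (0 : ℝ) ≤ (t.v i (Sum.inr y) : ℝ) := fun i y => by
    exact_mod_cast (ht.columns i).1 y
  have h2 : (z (Sum.inr y0) : ℝ) = s := by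
    have h3 := rep_inr (x := fun j => (z j : ℝ)) h y0
    rw [Finset.sum_eq_zero, zero_add] at h3
    · exact h3
    · intro i _
      by_cases hi : t.v i (Sum.inr y0) = 0
      · rw [hi]; simp
      · rw [h1 i hi, zero_mul]
  obtain ⟨y1, hy1⟩ := exists_zero ht.size hz
  have h3 : s ≤ 0 := by
    have h4 := rep_inr (x := fun j => (z j : ℝ)) h y1
    simp only [hy1, Int.cast_zero] at h4
    have h5 : 0 ≤ ∑ i, μ i * (t.v i (Sum.inr y1) : ℝ) :=
      Finset.sum_nonneg fun i _ => mul_nonneg (hμ i) (hv0 i y1)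
    linarith
  have h4 : (0 : ℝ) ≤ z (Sum.inr y0) := by exact_mod_cast hz.1 y0
  have hs : s = 0 := by linarith
  refine ⟨hs, by rw [hs] at h2; exact_mod_cast h2, fun y hy i hi => ?_⟩
  have h5 := rep_inr (x := fun j => (z j : ℝ)) h y
  simp only [hy, Int.cast_zero, hs, add_zero] at h5
  have h6 := (Finset.sum_eq_zero_iff_of_nonneg
    (fun i _ => mul_nonneg (hμ i) (hv0 i y))).1 h5.symm i (Finset.mem_univ i)
  rcases mul_eq_zero.1 h6 with h7 | h7
  · exact h7
  · exact absurd (by exact_mod_cast h7) hi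

/-- one sign -/
theorem indep_aux (ht : IsLC c Γ t) (hz : Trop c z) (hz2 : toReal z ∈ bigCone t) {y0 : Fin r}
    (hy0 : ∀ i, t.v i (Sum.inr y0) ≠ 0 → toReal (t.v i) ∉ faceSpan t (toReal z))
    {φ : Fin r → Fin t.p} (hφ : Sel t φ) (α : {y // z (Sum.inr y) = 0} → ℝ)
    (h1 : toReal z + ∑ y, α y • toReal (t.v (φ y)) ∈ bigCone t)
    (h2 : toReal z - ∑ y, α y • toReal (t.v (φ y)) ∈ bigCone t) : ∀ y, α y ≤ 0 := by
  classical
  obtain ⟨μ, s, hμ, h3⟩ := h1
  obtain ⟨μ', s', hμ', h4⟩ := h2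
  have h5 := rep_s ht hz hz2 hy0 (μ := fun i => (μ i + μ' i) / 2) (s := (s + s') / 2)
    (fun i => by have := hμ i; have := hμ' i; positivity) (by
    intro j
    have h6 := h3 j
    have h7 := h4 j
    simp only [Pi.add_apply, Pi.sub_apply, toReal] at h6 h7
    have h8 : ∑ i, (μ i + μ' i) / 2 * (t.v i j : ℝ) =
        (∑ i, μ i * (t.v i j : ℝ) + ∑ i, μ' i * (t.v i j : ℝ)) / 2 := by
      rw [← Finset.sum_add_distrib, Finset.sum_div]
      exact Finset.sum_congr rfl fun i _ => by ring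
    rw [h8]
    linarith)
  obtain ⟨hs, hy00, h6⟩ := h5
  have hμ0 : ∀ y, z (Sum.inr y) = 0 → ∀ i, t.v i (Sum.inr y) ≠ 0 → μ i = 0 := by
    intro y hy i hi
    have h7 := h6 y hy i hi
    have := hμ i
    have := hμ' i
    linarith
  -- all coefficients have the sign of `s`
  have h7 : ∀ y : {y // z (Sum.inr y) = 0}, α y * (t.v (φ y) (Sum.inr y.1) : ℝ) = s := by
    intro y
    have h8 := rep_inr h3 y.1
    simp only [Pi.add_apply, toReal, y.2, Int.cast_zero, zero_add, Finset.sum_apply,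
      Pi.smul_apply, smul_eq_mul] at h8
    rw [Finset.sum_eq_single y] at h8
    · rw [h8, Finset.sum_eq_zero, zero_add]
      intro i _
      by_cases hi : t.v i (Sum.inr y.1) = 0
      · rw [hi]; simp
      · rw [hμ0 y.1 y.2 i hi, zero_mul]
    · intro y' _ hne
      rw [ht.col_eq (hφ y'.1) (fun h => hne (Subtype.ext h.symm))]
      simp
    · intro h; exact absurd (Finset.mem_univ _) h
  have hpos : ∀ y : {y // z (Sum.inr y) = 0}, (0 : ℝ) < (t.v (φ y) (Sum.inr y.1) : ℝ) :=
    fun y => by exact_mod_cast ht.col_pos (hφ y.1)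
  by_contra hcon
  push Not at hcon
  obtain ⟨y1, hy1⟩ := hcon
  have hs0 : 0 < s := by
    rw [← h7 y1]
    exact mul_pos hy1 (hpos y1)
  have hα : ∀ y, 0 < α y := by
    intro y
    have h8 := h7 y
    by_contra hcon
    push Not at hcon
    have := mul_nonpos_of_nonpos_of_nonneg hcon (hpos y).le
    linarith
  -- so a vector over `y0` can be subtracted
  set Y0 : {y // z (Sum.inr y) = 0} := ⟨y0, hy00⟩ with hY0
  apply hy0 (φ y0) (hφ y0)
  apply gen_mem hz2 (hα Y0)
  have h8 := Finset.add_sum_erase univ (fun y => α y • toReal (t.v (φ y.1)))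
    (Finset.mem_univ Y0)
  have h9 : toReal z - α Y0 • toReal (t.v (φ y0)) =
      (toReal z - ∑ y, α y • toReal (t.v (φ y.1))) +
        ∑ y ∈ univ.erase Y0, α y • toReal (t.v (φ y.1)) := by
    rw [← h8]
    simp only [hY0]
    abel
  rw [h9]
  refine bc_add ⟨μ', s', hμ', h4⟩ (bc_sum _ _ fun y _ => bc_smul (bc_gen _) (hα y).le)

/-- vectors over the other `y` are independent modulo the span of the face -/
theorem indep (ht : IsLC c Γ t) (hz : Trop c z) (hz2 : toReal z ∈ bigCone t) {y0 : Fin r}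
    (hy0 : ∀ i, t.v i (Sum.inr y0) ≠ 0 → toReal (t.v i) ∉ faceSpan t (toReal z))
    {φ : Fin r → Fin t.p} (hφ : Sel t φ) (α : {y // z (Sum.inr y) = 0} → ℝ)
    (h : ∑ y, α y • toReal (t.v (φ y)) ∈ faceSpan t (toReal z)) : ∀ y, α y = 0 := by
  classical
  obtain ⟨ε, hε, h1⟩ := mem_face hz2 h
  have h2 : ∀ δ : ℝ, δ • ∑ y, α y • toReal (t.v (φ y.1)) =
      ∑ y, (δ * α y) • toReal (t.v (φ y.1)) := by
    intro δ
    rw [Finset.smul_sum]
    exact Finset.sum_congr rfl fun y _ => by rw [smul_smul]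
  have h3 : ∑ y, (-ε * α y) • toReal (t.v (φ y.1)) = -∑ y, (ε * α y) • toReal (t.v (φ y.1)) := by
    rw [← Finset.sum_neg_distrib]
    exact Finset.sum_congr rfl fun y _ => by rw [neg_mul, neg_smul]
  have hp := h1 ε (by rw [abs_of_pos hε])
  have hm := h1 (-ε) (by rw [abs_neg, abs_of_pos hε])
  rw [h2] at hp hm
  have h4 := indep_aux ht hz hz2 hy0 hφ (fun y => ε * α y) hp (by
    rw [h3, ← sub_eq_add_neg] at hm; exact hm)
  have h5 := indep_aux ht hz hz2 hy0 hφ (fun y => -ε * α y) hm (by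
    rw [h3, sub_neg_eq_add]; exact hp)
  intro y
  have h6 := h4 y
  have h7 := h5 y
  have h8 : α y ≤ 0 := by
    by_contra hcon
    push Not at hcon
    have := mul_pos hε hcon
    linarith
  have h9 : 0 ≤ α y := by
    by_contra hcon
    push Not at hcon
    have := mul_neg_of_pos_of_neg hε hcon
    linarith
  exact le_antisymm h8 h9

theorem finrank_indep (ht : IsLC c Γ t) (hz : Trop c z) (hz2 : toReal z ∈ bigCone t) {y0 : Fin r}
    (hy0 : ∀ i, t.v i (Sum.inr y0) ≠ 0 → toReal (t.v i) ∉ faceSpan t (toReal z))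
    {φ : Fin r → Fin t.p} (hφ : Sel t φ) {G : Submodule ℝ (Fin n ⊕ Fin r → ℝ)}
    (hG : faceSpan t (toReal z) ≤ G)
    (hG2 : ∀ y, z (Sum.inr y) = 0 → toReal (t.v (φ y)) ∈ G) :
    Module.finrank ℝ (faceSpan t (toReal z)) + Fintype.card {y // z (Sum.inr y) = 0} ≤
      Module.finrank ℝ G := by
  classical
  set Φ : ({y // z (Sum.inr y) = 0} → ℝ) × faceSpan t (toReal z) →ₗ[ℝ] (Fin n ⊕ Fin r → ℝ) :=
    (Fintype.linearCombination ℝ (fun y : {y // z (Sum.inr y) = 0} =>
      toReal (t.v (φ y.1)))).coprod (faceSpan t (toReal z)).subtype with hΦ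
  have hval : ∀ p, Φ p = ∑ y, p.1 y • toReal (t.v (φ y.1)) + (p.2 : Fin n ⊕ Fin r → ℝ) := by
    intro p
    simp [hΦ, Fintype.linearCombination_apply]
  have hinj : Function.Injective Φ := by
    rw [← LinearMap.ker_eq_bot, LinearMap.ker_eq_bot']
    rintro ⟨α, u⟩ h
    rw [hval] at h
    simp only at h
    have h1 : ∑ y, α y • toReal (t.v (φ y.1)) ∈ faceSpan t (toReal z) := by
      rw [eq_neg_of_add_eq_zero_left h]
      exact Submodule.neg_mem _ u.2
    have h2 := indep ht hz hz2 hy0 hφ α h1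
    have h3 : ∑ y, α y • toReal (t.v (φ y.1)) = 0 :=
      Finset.sum_eq_zero fun y _ => by rw [h2 y, zero_smul]
    rw [h3, zero_add] at h
    ext1
    · funext y; exact h2 y
    · exact Subtype.ext h
  have hmem : ∀ p, Φ p ∈ G := by
    intro p
    rw [hval]
    exact Submodule.add_mem _ (Submodule.sum_mem _ fun y _ =>
      Submodule.smul_mem _ _ (hG2 y.1 y.2)) (hG p.2.2)
  have h1 := LinearMap.finrank_le_finrank_of_injective (f := Φ.codRestrict G hmem)
    (fun a b h => hinj (by simpa using congrArg Subtype.val h))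
  rw [Module.finrank_prod, Module.finrank_fintype_fun_eq_card] at h1
  omega

/-! ## lower bounds for the dimension of the centre -/

theorem mem_coordSpan {S : Finset (Fin r)} {x : Fin n ⊕ Fin r → ℝ} :
    x ∈ coordSpan n S ↔ ∀ y, y ∉ S → x (Sum.inr y) = 0 := by
  constructor
  · intro h
    induction h using Submodule.span_induction with
    | mem x h => exact h
    | zero => intro y _; rfl
    | add x y _ _ hx hy => intro k hk; rw [Pi.add_apply, hx k hk, hy k hk, add_zero]
    | smul a x _ hx => intro k hk; rw [Pi.smul_apply, hx k hk, smul_zero]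
  · intro h
    exact Submodule.subset_span h

theorem finrank_coordSpan (S : Finset (Fin r)) :
    n + S.card ≤ Module.finrank ℝ (coordSpan n S) := by
  classical
  set f : (Fin n ⊕ Fin r → ℝ) →ₗ[ℝ] ({y // y ∉ S} → ℝ) :=
    LinearMap.funLeft ℝ ℝ (fun y : {y // y ∉ S} => (Sum.inr y.1 : Fin n ⊕ Fin r)) with hf
  have hker : LinearMap.ker f ≤ coordSpan n S := by
    intro x hx
    rw [mem_coordSpan]
    intro y hy
    exact congrFun (LinearMap.mem_ker.1 hx) ⟨y, hy⟩
  have h1 := f.finrank_range_add_finrank_ker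
  have h2 := Submodule.finrank_mono hker
  have h3 : Module.finrank ℝ (LinearMap.range f) ≤ r - S.card := by
    refine (Submodule.finrank_le _).trans ?_
    rw [Module.finrank_fintype_fun_eq_card, Fintype.card_subtype_compl]
    simp
  rw [Module.finrank_fintype_fun_eq_card] at h1
  simp only [Fintype.card_sum, Fintype.card_fin] at h1
  have h4 : S.card ≤ r := by simpa using Finset.card_le_univ S
  omega

theorem exists_S (hc : c < r) (hz : Trop c z) :
    ∃ S : Finset (Fin r), S.card = c ∧ ∀ y, z (Sum.inr y) ≠ 0 → y ∈ S := by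
  classical
  obtain ⟨S, h1, h2⟩ := Finset.exists_superset_card_eq
    (s := univ.filter fun y => z (Sum.inr y) ≠ 0) (n := c) (by have := hz.2; convert this)
    (by simpa using hc.le)
  exact ⟨S, h2, fun y hy => h1 (by simpa using hy)⟩

theorem le_centreDim {S : Finset (Fin r)} (h1 : S.card = c)
    (h2 : ∀ y, z (Sum.inr y) ≠ 0 → y ∈ S) :
    Module.finrank ℝ ↥(faceSpan t (toReal z) ⊔ coordSpan n S) ≤
      Module.finrank ℝ (faceSpan t (toReal z)) + centreDim c t z := by
  have h3 := Finset.le_sup (f := fun S : Finset (Fin r) =>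
    Set.finrank ℝ (faceDirs t (toReal z) ∪ coordSet n S) -
        Set.finrank ℝ (faceDirs t (toReal z)))
    (show S ∈ ((univ : Finset (Finset (Fin r))).filter fun S =>
      S.card = c ∧ ∀ y, z (Sum.inr y) ≠ 0 → y ∈ S) by
      rw [Finset.mem_filter]; exact ⟨Finset.mem_univ _, h1, h2⟩)
  change Set.finrank ℝ (faceDirs t (toReal z) ∪ coordSet n S) -
        Set.finrank ℝ (faceDirs t (toReal z)) ≤ centreDim c t z at h3
  rw [Set.finrank, Set.finrank, Submodule.span_union] at h3
  change Module.finrank ℝ ↥(faceSpan t (toReal z) ⊔ coordSpan n S) -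
    Module.finrank ℝ (faceSpan t (toReal z)) ≤ _ at h3
  omega

/-- first case: the face contains a vector over each `y` -/
theorem dim_one (hc : c < r) (hcol : ∀ i, Trop 1 (t.v i)) (hz : Trop c z)
    (h : ∀ y, ∃ i, t.v i (Sum.inr y) ≠ 0 ∧ toReal (t.v i) ∈ faceSpan t (toReal z)) :
    n + r ≤ Module.finrank ℝ (faceSpan t (toReal z)) + centreDim c t z := by
  classical
  obtain ⟨S, hS1, hS2⟩ := exists_S (n := n) hc hz
  have htop : faceSpan t (toReal z) ⊔ coordSpan n S = ⊤ := by
    rw [eq_top_iff]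
    intro x _
    choose φ hφ hφF using h
    have e : x = ∑ y, (x (Sum.inr y) / (t.v (φ y) (Sum.inr y) : ℝ)) • toReal (t.v (φ y)) +
        (x - ∑ y, (x (Sum.inr y) / (t.v (φ y) (Sum.inr y) : ℝ)) • toReal (t.v (φ y))) := by abel
    rw [e]
    refine Submodule.add_mem_sup (Submodule.sum_mem _ fun y _ =>
      Submodule.smul_mem _ _ (hφF y)) ?_
    rw [mem_coordSpan]
    intro y _
    simp only [Pi.sub_apply, Finset.sum_apply, Pi.smul_apply, smul_eq_mul, toReal]
    rw [Finset.sum_eq_single y]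
    · have : (t.v (φ y) (Sum.inr y) : ℝ) ≠ 0 := by exact_mod_cast hφ y
      rw [div_mul_cancel₀ _ this, sub_self]
    · intro y' _ hne
      have h1 : t.v (φ y') (Sum.inr y) = 0 := by
        by_contra hcon
        have h2 := (hcol (φ y')).2
        have h3 : ({y', y} : Finset (Fin r)) ⊆
            univ.filter fun k => t.v (φ y') (Sum.inr k) ≠ 0 := by
          intro k hk
          rw [Finset.mem_insert, Finset.mem_singleton] at hk
          rw [Finset.mem_filter]
          rcases hk with rfl | rfl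
          · exact ⟨Finset.mem_univ _, hφ _⟩
          · exact ⟨Finset.mem_univ _, hcon⟩
        have h4 := Finset.card_le_card h3
        rw [Finset.card_pair hne] at h4
        have h5 : (univ.filter fun k => t.v (φ y') (Sum.inr k) ≠ 0).card ≤ 1 := by
          convert h2
        omega
      rw [h1]; simp
    · intro h; exact absurd (Finset.mem_univ _) h
  have h1 := le_centreDim (t := t) hS1 hS2
  rw [htop, finrank_top, Module.finrank_fintype_fun_eq_card] at h1
  simpa only [Fintype.card_sum, Fintype.card_fin] using h1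

theorem dim_two (hc : c < r) (hz : Trop c z) (hz2 : toReal z ∈ bigCone t) :
    n + c + 1 ≤ Module.finrank ℝ (faceSpan t (toReal z)) + centreDim c t z := by
  classical
  obtain ⟨S, hS1, hS2⟩ := exists_S (n := n) hc hz
  have h1 := le_centreDim (t := t) hS1 hS2
  have h2 := finrank_coordSpan (n := n) S
  obtain ⟨y1, hy1⟩ : ∃ y1, y1 ∉ S := by
    by_contra hcon
    push Not at hcon
    have : S = univ := Finset.eq_univ_of_forall hcon
    rw [this, Finset.card_univ, Fintype.card_fin] at hS1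
    omega
  have h3 : coordSpan n S < faceSpan t (toReal z) ⊔ coordSpan n S := by
    refine lt_of_le_of_ne le_sup_right fun h => ?_
    have h4 : toReal (diag n r) ∈ coordSpan n S := by
      rw [h]
      exact Submodule.mem_sup_left (diag_mem hz2)
    have h5 := mem_coordSpan.1 h4 y1 hy1
    simp [toReal, Pool.Agent.helper22.ARR.diag] at h5
  have h4 := Submodule.finrank_lt_finrank_of_lt h3
  omega

end Pool.Agent.helper20.TLS
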