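import Pool.Agent.helper20.TLS.Defs
import Pool.Agent.helper22.ARR.Main

/-!
# Faces of the big cone
-/

noncomputable section

namespace Pool.Agent.helper20.TLS

open Finset Pool.Agent.helper22.ARR

variable {n r c : ℕ} {Γ : Set ℝ} {t : GenPair (Fin n ⊕ Fin r)} {w x y : Fin n ⊕ Fin r → ℝ}

/-- the linear span of the smallest face of `bigCone t` which contains `w` -/
def faceSpan (t : GenPair (Fin n ⊕ Fin r)) (w : Fin n ⊕ Fin r → ℝ) :
    Submodule ℝ (Fin n ⊕ Fin r → ℝ) :=
  Submodule.span ℝ (faceDirs t w)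

/-- the subspace `ℝ^n × ℝ^S` -/
def coordSpan (n : ℕ) (S : Finset (Fin r)) : Submodule ℝ (Fin n ⊕ Fin r → ℝ) :=
  Submodule.span ℝ (coordSet n S)

theorem bc_add (hx : x ∈ bigCone t) (hy : y ∈ bigCone t) : x + y ∈ bigCone t := by
  rw [bigCone_eq] at *
  exact coneOf_add _ hx hy

theorem bc_smul (hx : x ∈ bigCone t) {s : ℝ} (hs : 0 ≤ s) : s • x ∈ bigCone t := by
  rw [bigCone_eq] at *
  exact coneOf_smul _ hx hs

theorem bc_gen (i : Fin t.p) : toReal (t.v i) ∈ bigCone t := by
  rw [bigCone_eq]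
  exact ext_gen i

theorem bc_diag (s : ℝ) : s • toReal (diag n r) ∈ bigCone t := by
  rw [bigCone_eq]
  exact ext_diag s

theorem bc_sum {α : Type*} (s : Finset α) (f : α → Fin n ⊕ Fin r → ℝ)
    (h : ∀ a ∈ s, f a ∈ bigCone t) : ∑ a ∈ s, f a ∈ bigCone t := by
  rw [bigCone_eq] at *
  exact coneOf_sum _ _ _ h

/-- elements of the span of the face can be added and subtracted -/
theorem mem_face (hw : w ∈ bigCone t) (hx : x ∈ faceSpan t w) :
    ∃ ε > 0, ∀ δ : ℝ, |δ| ≤ ε → w + δ • x ∈ bigCone t := by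
  induction hx using Submodule.span_induction with
  | mem x h =>
    refine ⟨1, one_pos, fun δ hδ => ?_⟩
    rcases le_total 0 δ with h0 | h0
    · rw [abs_of_nonneg h0] at hδ
      have e : w + δ • x = δ • (w + x) + (1 - δ) • w := by
        rw [smul_add, sub_smul, one_smul]; abel
      rw [e]
      exact bc_add (bc_smul h.1 h0) (bc_smul hw (by linarith))
    · rw [abs_of_nonpos h0] at hδ
      have e : w + δ • x = (-δ) • (w - x) + (1 + δ) • w := by
        rw [smul_sub, add_smul, one_smul, neg_smul, neg_smul]; abel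
      rw [e]
      exact bc_add (bc_smul h.2 (by linarith)) (bc_smul hw (by linarith))
  | zero => exact ⟨1, one_pos, fun δ _ => by rw [smul_zero, add_zero]; exact hw⟩
  | add x y _ _ hx hy =>
    obtain ⟨ε1, h1, hx⟩ := hx
    obtain ⟨ε2, h2, hy⟩ := hy
    refine ⟨min ε1 ε2 / 2, by positivity, fun δ hδ => ?_⟩
    have e : w + δ • (x + y) = (1 / 2 : ℝ) • (w + (2 * δ) • x) + (1 / 2 : ℝ) • (w + (2 * δ) • y) := by
      rw [smul_add, smul_add, smul_add, smul_smul, smul_smul]
      have : (1 / 2 : ℝ) * (2 * δ) = δ := by ring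
      rw [this]
      have h3 : w = (1 / 2 : ℝ) • w + (1 / 2 : ℝ) • w := by
        rw [← add_smul]; norm_num
      nth_rewrite 1 [h3]
      abel
    rw [e]
    have h3 : |2 * δ| = 2 * |δ| := by rw [abs_mul]; norm_num
    refine bc_add (bc_smul (hx _ ?_) (by norm_num)) (bc_smul (hy _ ?_) (by norm_num))
    · rw [h3]; linarith [min_le_left ε1 ε2]
    · rw [h3]; linarith [min_le_right ε1 ε2]
  | smul a x _ hx =>
    obtain ⟨ε, h1, hx⟩ := hx
    refine ⟨ε / (|a| + 1), by positivity, fun δ hδ => ?_⟩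
    rw [smul_smul]
    apply hx
    rw [abs_mul]
    have h2 : 0 < |a| + 1 := by positivity
    rw [le_div_iff₀ h2] at hδ
    nlinarith [abs_nonneg δ, abs_nonneg a]

theorem face_of {ε : ℝ} (hε : 0 < ε) (h1 : w + ε • x ∈ bigCone t) (h2 : w - ε • x ∈ bigCone t) :
    x ∈ faceSpan t w := by
  have h3 : ε • x ∈ faceSpan t w := Submodule.subset_span ⟨h1, h2⟩
  have h4 := (faceSpan t w).smul_mem ε⁻¹ h3
  rwa [smul_smul, inv_mul_cancel₀ hε.ne', one_smul] at h4

theorem gen_mem (hw : w ∈ bigCone t) {ε : ℝ} (hε : 0 < ε) {i : Fin t.p}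
    (h : w - ε • toReal (t.v i) ∈ bigCone t) : toReal (t.v i) ∈ faceSpan t w :=
  face_of hε (bc_add hw (bc_smul (bc_gen i) hε.le)) h

theorem diag_mem (hw : w ∈ bigCone t) : toReal (diag n r) ∈ faceSpan t w := by
  apply face_of one_pos
  · exact bc_add hw (bc_diag 1)
  · have := bc_diag (t := t) (-1)
    rw [neg_smul] at this
    rw [sub_eq_add_neg]
    exact bc_add hw this

theorem face_mono (hy : y ∈ bigCone t) : faceSpan t w ≤ faceSpan t (w + y) := by
  apply Submodule.span_mono
  rintro x ⟨h1, h2⟩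
  constructor
  · have : w + y + x = w + x + y := by abel
    rw [this]
    exact bc_add h1 hy
  · have : w + y - x = w - x + y := by abel
    rw [this]
    exact bc_add h2 hy

theorem face_add (hw : w ∈ bigCone t) (hy : y ∈ bigCone t) : y ∈ faceSpan t (w + y) := by
  apply Submodule.subset_span
  constructor
  · exact bc_add (bc_add hw hy) hy
  · rw [add_sub_cancel_right]; exact hw

theorem interior_of_face (hfull : (interior (bigCone t)).Nonempty) (hw : w ∈ bigCone t)
    (h : ∀ i, toReal (t.v i) ∈ faceSpan t w) : w ∈ interior (bigCone t) := by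
  rw [bigCone_eq] at hfull ⊢
  apply interior_of_rint _ hfull
  apply rint_ext
  · rw [← bigCone_eq]; exact hw
  · intro i
    obtain ⟨ε, hε, h1⟩ := mem_face hw (h i)
    refine ⟨ε, hε, ?_⟩
    rw [← bigCone_eq]
    have := h1 (-ε) (by rw [abs_neg, abs_of_pos hε])
    rwa [neg_smul, ← sub_eq_add_neg] at this

/-- adding generators until the interior is reached -/
theorem climb {A : Fin t.p → Prop} {f : (Fin n ⊕ Fin r → ℤ) → ℝ}
    {T : (Fin n ⊕ Fin r → ℤ) → Prop} (hf : ∀ w i, A i → f (w + t.v i) ≤ f w + 1)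
    (hT : ∀ w i, A i → T w → T (w + t.v i)) (hfull : (interior (bigCone t)).Nonempty) :
    ∀ (k : ℕ) (w : Fin n ⊕ Fin r → ℤ), T w → toReal w ∈ bigCone t →
      (∀ i, ¬ A i → toReal (t.v i) ∈ faceSpan t (toReal w)) →
      n + r ≤ Module.finrank ℝ (faceSpan t (toReal w)) + k →
      ∃ W, T W ∧ toReal W ∈ interior (bigCone t) ∧ f W ≤ f w + k := by
  intro k
  induction k with
  | zero =>
    intro w hTw hw hA hk
    have htop : faceSpan t (toReal w) = ⊤ := by
      apply Submodule.eq_top_of_finrank_eq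
      apply le_antisymm (Submodule.finrank_le _)
      simpa [Module.finrank_fintype_fun_eq_card] using hk
    refine ⟨w, hTw, interior_of_face hfull hw fun i => by rw [htop]; trivial, by simp⟩
  | succ k ih =>
    intro w hTw hw hA hk
    by_cases hint : ∀ i, toReal (t.v i) ∈ faceSpan t (toReal w)
    · refine ⟨w, hTw, interior_of_face hfull hw hint, ?_⟩
      have : (0 : ℝ) ≤ ((k + 1 : ℕ) : ℝ) := Nat.cast_nonneg _
      linarith
    · push Not at hint
      obtain ⟨i, hi⟩ := hint
      have hAi : A i := by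
        by_contra hcon
        exact hi (hA i hcon)
      have hmono : faceSpan t (toReal w) ≤ faceSpan t (toReal (w + t.v i)) := by
        rw [toReal_add]
        exact face_mono (bc_gen i)
      have hmem : toReal (t.v i) ∈ faceSpan t (toReal (w + t.v i)) := by
        rw [toReal_add]
        exact face_add hw (bc_gen i)
      have hlt : faceSpan t (toReal w) < faceSpan t (toReal (w + t.v i)) :=
        lt_of_le_of_ne hmono fun h => hi (h ▸ hmem)
      have h1 := Submodule.finrank_lt_finrank_of_lt hlt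
      obtain ⟨W, hW1, hW2, hW3⟩ := ih (w + t.v i) (hT w i hAi hTw)
        (by rw [toReal_add]; exact bc_add hw (bc_gen i)) (fun j hj => hmono (hA j hj)) (by omega)
      refine ⟨W, hW1, hW2, ?_⟩
      have h2 := hf w i hAi
      push_cast
      linarith

end Pool.Agent.helper20.TLS
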