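import Pool.Agent.helper20.TLS.Dim

/-!
# Lower semicontinuity of minimal log discrepancies on arrangement varieties
-/

noncomputable section

namespace Pool.Agent.helper20.TLS

open Finset Pool.Agent.helper22.ARR

variable {n r c : ℕ} {Γ : Set ℝ} {t : GenPair (Fin n ⊕ Fin r)} {z : Fin n ⊕ Fin r → ℤ}

/-- adding a generator raises the auxiliary function by at most one -/
theorem big_add (ht : IsLC c Γ t) (hΓ : ∀ x ∈ Γ, 0 ≤ x) (w : Fin n ⊕ Fin r → ℤ) (i : Fin t.p) :
    logDisc (big c t) (toReal (w + t.v i)) ≤ logDisc (big c t) (toReal w) + 1 := by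
  rw [toReal_add, logDisc_big, logDisc_big]
  have h1 := logDisc_add (ht.nice hΓ) (toReal w) (toReal (t.v i))
  have h2 := ht.gen_le hΓ i
  obtain ⟨Q, hQ, h3⟩ := exists_tp ht.size (toReal w + toReal (t.v i))
  have h4 := le_tp (toReal w) hQ
  have h5 : ∑ y ∈ Q, toReal (t.v i) (Sum.inr y) ≤ ∑ y, toReal (t.v i) (Sum.inr y) :=
    Finset.sum_le_sum_of_subset_of_nonneg (Finset.subset_univ _) fun y _ _ => by
      simp only [toReal]
      exact_mod_cast (ht.columns i).1 y
  rw [h3]
  simp only [Pi.add_apply, Finset.sum_add_distrib]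
  linarith

theorem mld_le_big (ht : IsLC c Γ t) (hΓ : ∀ x ∈ Γ, 0 ≤ x)
    (hdeg : ∑ y, (1 - t.psi (Sum.inr y)) = c + 1) {φ : Fin r → Fin t.p} (hφ : Sel t φ)
    (hpos : 0 < logDisc t (toReal (X0 t φ))) {W : Fin n ⊕ Fin r → ℤ}
    (hW : toReal W ∈ interior (bigCone t)) : mld c t ≤ logDisc (big c t) (toReal W) := by
  obtain ⟨m, s, h1, h2⟩ := pia ht hΓ hdeg hφ hpos W
  refine (mld_le ht h1 ?_).trans h2
  have h3 : toReal (addM t φ W (fun y => (m y : ℤ)) - s • diag n r) = toReal W +
      (∑ y, (m y : ℝ) • toReal (t.v (φ y)) + (-(s : ℝ)) • toReal (diag n r)) := by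
    rw [toReal_sub, toReal_zsmul, addM, toReal_add, toReal_sum]
    simp only [toReal_zsmul, Int.cast_natCast]
    rw [neg_smul]; abel
  rw [h3]
  rw [bigCone_eq] at hW ⊢
  exact interior_add _ hW (coneOf_add _ (coneOf_sum _ _ _ fun y _ =>
    coneOf_smul _ (ext_gen _) (Nat.cast_nonneg _)) (ext_diag _))

/-- adding a vector over each `y` with `z_y = 0` -/
def fill (t : GenPair (Fin n ⊕ Fin r)) (z : Fin n ⊕ Fin r → ℤ) (φ : Fin r → Fin t.p) :
    Fin n ⊕ Fin r → ℤ := z + ∑ y : {y // z (Sum.inr y) = 0}, t.v (φ y.1)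

theorem fill_pos (ht : IsLC c Γ t) (hz : Trop c z) {φ : Fin r → Fin t.p} (hφ : Sel t φ)
    (y : Fin r) : 1 ≤ fill t z φ (Sum.inr y) := by
  classical
  simp only [fill, Pi.add_apply, Finset.sum_apply]
  have h0 : ∀ y' : {y // z (Sum.inr y) = 0}, 0 ≤ t.v (φ y'.1) (Sum.inr y) :=
    fun y' => (ht.columns _).1 y
  by_cases hy : z (Sum.inr y) = 0
  · have h1 := Finset.single_le_sum (f := fun y' : {y // z (Sum.inr y) = 0} =>
      t.v (φ y'.1) (Sum.inr y)) (fun y' _ => h0 y') (Finset.mem_univ ⟨y, hy⟩)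
    have h2 := ht.col_pos (hφ y)
    simp only at h1
    omega
  · have h1 := Finset.sum_nonneg fun y' (_ : y' ∈ (univ : Finset {y // z (Sum.inr y) = 0})) => h0 y'
    have h2 := hz.1 y
    omega

theorem fill_le (ht : IsLC c Γ t) (hΓ : ∀ x ∈ Γ, 0 ≤ x) (hz : Trop c z) {φ : Fin r → Fin t.p}
    (hφ : Sel t φ) : logDisc (big c t) (toReal (fill t z φ)) + r ≤
      logDisc t (toReal z) + c + 1 + Fintype.card {y // z (Sum.inr y) = 0} := by
  classical
  rw [logDisc_big]
  have h1 : logDisc t (toReal (fill t z φ)) ≤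
      logDisc t (toReal z) + Fintype.card {y // z (Sum.inr y) = 0} := by
    rw [fill, toReal_add, toReal_sum]
    refine (logDisc_add (ht.nice hΓ) _ _).trans (add_le_add le_rfl ?_)
    refine (logDisc_sum (ht.nice hΓ) _ _).trans ?_
    refine (Finset.sum_le_sum fun y _ => ht.gen_le hΓ (φ y.1)).trans ?_
    simp
  obtain ⟨Q, hQ, h3⟩ := exists_tp ht.size (toReal (fill t z φ))
  rw [h3]
  have h4 := Finset.sum_compl_add_sum Q fun y => toReal (fill t z φ) (Sum.inr y)
  have h5 : ((Qᶜ).card : ℝ) ≤ ∑ y ∈ Qᶜ, toReal (fill t z φ) (Sum.inr y) := by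
    have := Finset.card_nsmul_le_sum Qᶜ (fun y => toReal (fill t z φ) (Sum.inr y)) 1
      (fun y _ => by
        simp only [toReal]
        exact_mod_cast fill_pos ht hz hφ y)
    simpa using this
  have h6 : (r : ℝ) = (Qᶜ).card + (c + 1) := by
    have h7 := Finset.card_compl_add_card Q
    rw [hQ, Fintype.card_fin] at h7
    exact_mod_cast h7.symm
  linarith

theorem lscA (ht : IsLC c Γ t) (hΓ : ∀ x ∈ Γ, 0 ≤ x)
    (hdeg : ∑ y, (1 - t.psi (Sum.inr y)) = c + 1) {φ : Fin r → Fin t.p} (hφ : Sel t φ)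
    (hpos : 0 < logDisc t (toReal (X0 t φ))) (hz : Trop c z) (hz2 : toReal z ∈ bigCone t) :
    mld c t ≤ logDisc t (toReal z) + centreDim c t z := by
  classical
  by_cases h : ∀ y, ∃ i, t.v i (Sum.inr y) ≠ 0 ∧ toReal (t.v i) ∈ faceSpan t (toReal z)
  · have h1 := dim_one ht.size ht.columns hz h
    obtain ⟨W, _, hW, h2⟩ := climb (A := fun _ => True)
      (f := fun w => logDisc (big c t) (toReal w)) (T := fun _ => True)
      (fun w i _ => big_add ht hΓ w i) (fun _ _ _ _ => trivial) ht.full (centreDim c t z) z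
      trivial hz2 (fun i hi => absurd trivial hi) h1
    have h3 := mld_le_big ht hΓ hdeg hφ hpos hW
    rw [big_trop ht.size hz] at h2
    linarith
  · push Not at h
    obtain ⟨y0, hy0⟩ := h
    have hsum : toReal (fill t z φ) = toReal z +
        ∑ y : {y // z (Sum.inr y) = 0}, toReal (t.v (φ y.1)) := by
      rw [fill, toReal_add, toReal_sum]
    have hS : ∑ y : {y // z (Sum.inr y) = 0}, toReal (t.v (φ y.1)) ∈ bigCone t :=
      bc_sum _ _ fun y _ => bc_gen _
    have hZ : toReal (fill t z φ) ∈ bigCone t := by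
      rw [hsum]
      exact bc_add hz2 hS
    have hF : faceSpan t (toReal z) ≤ faceSpan t (toReal (fill t z φ)) := by
      rw [hsum]
      exact face_mono hS
    have hv : ∀ y, z (Sum.inr y) = 0 →
        toReal (t.v (φ y)) ∈ faceSpan t (toReal (fill t z φ)) := by
      intro y hy
      apply gen_mem hZ one_pos
      rw [one_smul, hsum, ← Finset.add_sum_erase univ
        (fun y : {y // z (Sum.inr y) = 0} => toReal (t.v (φ y.1))) (Finset.mem_univ ⟨y, hy⟩)]
      have e : ∀ a b c : Fin n ⊕ Fin r → ℝ, a + (b + c) - b = a + c := by intros; abel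
      rw [e]
      exact bc_add hz2 (bc_sum _ _ fun y _ => bc_gen _)
    have h1 := finrank_indep ht hz hz2 hy0 hφ hF hv
    have h2 := dim_two ht.size hz hz2
    have h3 := fill_le ht hΓ hz hφ
    have h4 : Module.finrank ℝ (faceSpan t (toReal (fill t z φ))) ≤ n + r := by
      refine (Submodule.finrank_le _).trans ?_
      simp [Module.finrank_fintype_fun_eq_card]
    obtain ⟨k, hk⟩ := Nat.exists_eq_add_of_le h4
    obtain ⟨W, _, hW, h5⟩ := climb (A := fun _ => True)
      (f := fun w => logDisc (big c t) (toReal w)) (T := fun _ => True)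
      (fun w i _ => big_add ht hΓ w i) (fun _ _ _ _ => trivial) ht.full k (fill t z φ)
      trivial hZ (fun i hi => absurd trivial hi) (by omega)
    have h6 := mld_le_big ht hΓ hdeg hφ hpos hW
    have h7 : (k : ℝ) + Module.finrank ℝ (faceSpan t (toReal z)) +
        Fintype.card {y // z (Sum.inr y) = 0} ≤ n + r := by
      exact_mod_cast (by omega : k + Module.finrank ℝ (faceSpan t (toReal z)) +
        Fintype.card {y // z (Sum.inr y) = 0} ≤ n + r)
    have h8 : (n : ℝ) + c + 1 ≤ Module.finrank ℝ (faceSpan t (toReal z)) + centreDim c t z := by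
      exact_mod_cast h2
    linarith

theorem lscB (ht : IsLC c Γ t) (hΓ : ∀ x ∈ Γ, 0 ≤ x)
    (hB : ∀ φ, Sel t φ → logDisc t (toReal (X0 t φ)) = 0) (hz : Trop c z)
    (hz2 : toReal z ∈ bigCone t) : mld c t ≤ logDisc t (toReal z) + centreDim c t z := by
  classical
  set P : Fin n ⊕ Fin r → ℤ :=
    ∑ φ ∈ (univ : Finset (Fin r → Fin t.p)).filter (Sel t), X0 t φ with hP
  have hPinr : ∀ y, P (Sum.inr y) = 0 := by
    intro y
    simp only [hP, Finset.sum_apply]
    exact Finset.sum_eq_zero fun φ hφ => X0_inr ht (Finset.mem_filter.1 hφ).2 y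
  have hPr : toReal P = ∑ φ ∈ (univ : Finset (Fin r → Fin t.p)).filter (Sel t),
      toReal (X0 t φ) := by rw [hP, toReal_sum]
  have hPlog : logDisc t (toReal P) ≤ 0 := by
    rw [hPr]
    refine (logDisc_sum (ht.nice hΓ) _ _).trans ?_
    exact (Finset.sum_eq_zero fun φ hφ => hB φ (Finset.mem_filter.1 hφ).2).le
  have hX0 : ∀ φ, Sel t φ → toReal (X0 t φ) ∈ bigCone t := by
    intro φ hφ
    rw [bigCone_eq]
    exact X0_mem ht hφ
  have hPc : toReal P ∈ bigCone t := by
    rw [hPr]
    exact bc_sum _ _ fun φ hφ => hX0 φ (Finset.mem_filter.1 hφ).2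
  have hver : ∀ i, ¬ (∀ y, t.v i (Sum.inr y) = 0) →
      toReal (t.v i) ∈ faceSpan t (toReal (z + P)) := by
    intro j hj
    push Not at hj
    obtain ⟨y, hy⟩ := hj
    obtain ⟨φ₀, hφ₀⟩ := ht.exists_sel
    set φ := Function.update φ₀ y j with hφdef
    have hφ : Sel t φ := by
      intro y'
      by_cases h : y' = y
      · subst h; rw [hφdef, Function.update_self]; exact hy
      · rw [hφdef, Function.update_of_ne h]; exact hφ₀ y'
    have hmem : φ ∈ (univ : Finset (Fin r → Fin t.p)).filter (Sel t) := by simpa using hφ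
    have hN : (0 : ℝ) < Ny t φ y := by exact_mod_cast Ny_pos ht hφ y
    apply gen_mem (by rw [toReal_add]; exact bc_add hz2 hPc) hN
    rw [toReal_add, hPr, ← Finset.add_sum_erase _ _ hmem, toReal_X0, XX, toReal_sum,
        ← Finset.add_sum_erase univ _ (Finset.mem_univ y), toReal_zsmul]
    have hj' : φ y = j := by rw [hφdef, Function.update_self]
    rw [hj']
    have h2 : ∀ a u v w z : Fin n ⊕ Fin r → ℝ, a + (u + v + w + z) - u = a + (v + w + z) := by
      intros; abel
    rw [h2]
    refine bc_add hz2 (bc_add (bc_add (bc_sum _ _ fun y' _ => ?_)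
        (bc_diag _)) (bc_sum _ _ fun φ hφ =>
          hX0 φ (Finset.mem_filter.1 (Finset.mem_of_mem_erase hφ)).2))
    rw [toReal_zsmul]
    exact bc_smul (bc_gen _) (by exact_mod_cast (Ny_pos ht hφ y').le)
  have htr : Trop c (z + P) := by
    have e : ∀ y, (z + P) (Sum.inr y) = z (Sum.inr y) := fun y => by
      rw [Pi.add_apply, hPinr, add_zero]
    refine ⟨fun y => by rw [e]; exact hz.1 y, ?_⟩
    simp only [e]
    exact hz.2
  have hmono : faceSpan t (toReal z) ≤ faceSpan t (toReal (z + P)) := by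
    rw [toReal_add]
    exact face_mono hPc
  have hdim : n + r ≤ Module.finrank ℝ (faceSpan t (toReal (z + P))) + centreDim c t z := by
    by_cases h : ∀ y, ∃ i, t.v i (Sum.inr y) ≠ 0 ∧ toReal (t.v i) ∈ faceSpan t (toReal z)
    · have h1 := dim_one ht.size ht.columns hz h
      have h2 := Submodule.finrank_mono hmono
      omega
    · push Not at h
      obtain ⟨y0, hy0⟩ := h
      obtain ⟨φ, hφ⟩ := ht.exists_sel
      have h1 := finrank_indep ht hz hz2 hy0 hφ hmono
        (fun y _ => hver (φ y) (fun h => hφ y (h y)))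
      have h2 := dim_two ht.size hz hz2
      have h3 : r ≤ Fintype.card {y // z (Sum.inr y) = 0} + c := by
        have h4 := Finset.card_filter_add_card_filter_not (s := (univ : Finset (Fin r)))
          (fun y => z (Sum.inr y) = 0)
        rw [Finset.card_univ, Fintype.card_fin] at h4
        rw [Fintype.card_subtype]
        have h5 : (univ.filter fun y => ¬ z (Sum.inr y) = 0).card ≤ c := by
          have := hz.2
          convert this
        omega
      omega
  obtain ⟨W, hW1, hW2, hW3⟩ := climb (A := fun i => ∀ y, t.v i (Sum.inr y) = 0)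
    (f := fun w => logDisc t (toReal w)) (T := Trop c) (by
      intro w i _
      rw [toReal_add]
      exact (logDisc_add (ht.nice hΓ) _ _).trans (add_le_add le_rfl (ht.gen_le hΓ i))) (by
      intro w i hi hw
      have e : ∀ y, (w + t.v i) (Sum.inr y) = w (Sum.inr y) := fun y => by
        rw [Pi.add_apply, hi, add_zero]
      refine ⟨fun y => by rw [e]; exact hw.1 y, ?_⟩
      simp only [e]
      exact hw.2) ht.full (centreDim c t z) (z + P) htr
    (by rw [toReal_add]; exact bc_add hz2 hPc) hver hdim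
  have h1 := mld_le ht hW1 hW2
  have h2 : logDisc t (toReal (z + P)) ≤ logDisc t (toReal z) := by
    rw [toReal_add]
    have := logDisc_add (ht.nice hΓ) (toReal z) (toReal P)
    linarith
  linarith

/-- **Lower semicontinuity of minimal log discrepancies** at the elliptic fixed point. -/
theorem lsc (ht : IsLC c Γ t) (hΓ : ∀ x ∈ Γ, 0 ≤ x) (hz : Trop c z)
    (hz2 : toReal z ∈ bigCone t) : mld c t ≤ logDisc t (toReal z) + centreDim c t z := by
  by_cases hB : ∀ φ, Sel t φ → logDisc t (toReal (X0 t φ)) = 0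
  · exact lscB ht hΓ hB hz hz2
  · push Not at hB
    obtain ⟨φ, hφ, hne⟩ := hB
    have hdeg : ∑ y, (1 - t.psi (Sum.inr y)) = c + 1 := by
      rcases ht.degree with h | h
      · exact h
      · exact absurd (X0_zero ht hΓ h hφ) hne
    exact lscA ht hΓ hdeg hφ (lt_of_le_of_ne (X0_nonneg ht hφ) (Ne.symm hne)) hz hz2

end Pool.Agent.helper20.TLS
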